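import Pool.Agent.MP_de21d3_co.H91.Main

/-!
A connected graph with an embedding scheme of Euler genus at most `g` has cop number at most
`g + 3`.
-/

namespace Pool.Agent.Results.MP_de21d3_co.EulerGenus

open Pool.Agent.MP_de21d3_co.H91

theorem result {V : Type} [Fintype V] [DecidableEq V] (G : SimpleGraph V) (hG : G.Connected)
    (σ : Scheme G) (g : ℕ) (hg : Nat.card G.edgeSet + 2 ≤ Nat.card V + σ.faces + g) :
    CopsWin G (g + 3) :=
  cops hG σ g hg

end Pool.Agent.Results.MP_de21d3_co.EulerGenus
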