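import Pool.Agent.MP_de21d3_co.H85.Final

/-!
The cop number of a connected graph drawn in the surface with `g` crosscaps, or in the surface
with `g` handles, is at most `C g exp (-c √(log g))`.
-/

namespace Pool.Agent.Results.MP_de21d3_co.Rate

open Pool.Agent.MP_aee211_co.H55 (Embeds Surf wordN wordS)
open Pool.Agent.MP_de21d3_co.H91 (CopsWin)

theorem result : ∃ c : ℝ, 0 < c ∧ ∃ C : ℝ, ∀ g : ℕ, 1 ≤ g → ∀ (V : Type) [Finite V]
    (G : SimpleGraph V), G.Connected →
      Embeds G (Surf (wordN g)) ∨ Embeds G (Surf (wordS g)) →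
        ∃ k : ℕ, (k : ℝ) ≤ C * g * Real.exp (-c * √(Real.log g)) ∧ CopsWin G k :=
  Pool.Agent.MP_de21d3_co.H85.rate

end Pool.Agent.Results.MP_de21d3_co.Rate
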